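import Mathlib

/-!
# Crossing probability of a square tiling versus its total side length

For a (finite or countably infinite) tiling of the unit square by closed squares, coloured
independently black with probability `p`, the probability of a black left-right crossing is at
least `p ^ (sum of the side lengths)`.
-/

open MeasureTheory Set
open scoped ENNReal NNReal unitInterval

namespace Pool.Agent.Results.MP_aaae3e_pr.SideLengthBound

/-- The unit square `[0,1]²`. -/
def unitSquare : Set (ℝ × ℝ) := Icc (0 : ℝ) 1 ×ˢ Icc (0 : ℝ) 1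

/-- The closed axis-parallel square with lower left corner `c` and side `s`. -/
def square (c : ℝ × ℝ) (s : ℝ) : Set (ℝ × ℝ) := Icc c.1 (c.1 + s) ×ˢ Icc c.2 (c.2 + s)

/-- A square tiling of the unit square, with tiles indexed by `ι`: closed axis-parallel squares
of positive side with pairwise disjoint interiors whose union is exactly the unit square, no
point lying in four or more tiles. -/
structure SquareTiling (ι : Type) where
  corner : ι → ℝ × ℝ
  side : ι → ℝ
  side_pos : ∀ i, 0 < side i
  disjoint_interior : Pairwise fun i j =>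
    Disjoint (interior (square (corner i) (side i))) (interior (square (corner j) (side j)))
  iUnion_eq : ⋃ i, square (corner i) (side i) = unitSquare
  three : ∀ z : ℝ × ℝ, {i | z ∈ square (corner i) (side i)}.encard ≤ 3

/-- The tile with index `i`. -/
def SquareTiling.tile {ι : Type} (T : SquareTiling ι) (i : ι) : Set (ℝ × ℝ) :=
  square (T.corner i) (T.side i)

/-- `ω i = true` means that tile `i` is black.  There is a continuous path in the union of the
black tiles from the left side to the right side of the unit square. -/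
def SquareTiling.Crossing {ι : Type} (T : SquareTiling ι) (ω : ι → Bool) : Prop :=
  ∃ γ : C(I, ℝ × ℝ), (γ 0).1 = 0 ∧ (γ 1).1 = 1 ∧ ∀ t, ∃ i, ω i = true ∧ γ t ∈ T.tile i

/-- The law of the colouring: each tile is black (`true`) with probability `p` and white (`false`)
with probability `1 - p`, independently. -/
noncomputable def colouring (ι : Type) (p : I) : Measure (ι → Bool) :=
  Measure.infinitePi fun _ : ι => ProbabilityTheory.bernoulliMeasure true false p

theorem tile_subset {ι : Type} (T : SquareTiling ι) (i : ι) : T.tile i ⊆ unitSquare := by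
  rw [← T.iUnion_eq]; exact subset_iUnion (fun i => square (T.corner i) (T.side i)) i

theorem yrange {ι : Type} (T : SquareTiling ι) (i : ι) :
    0 ≤ (T.corner i).2 ∧ (T.corner i).2 + T.side i ≤ 1 := by
  have h := T.side_pos i
  have h1 : ((T.corner i).1, (T.corner i).2) ∈ T.tile i := by
    simp only [SquareTiling.tile, square, mem_prod, mem_Icc]
    refine ⟨⟨le_rfl, by linarith⟩, le_rfl, by linarith⟩
  have h2 : ((T.corner i).1, (T.corner i).2 + T.side i) ∈ T.tile i := by
    simp only [SquareTiling.tile, square, mem_prod, mem_Icc]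
    refine ⟨⟨le_rfl, by linarith⟩, by linarith, le_rfl⟩
  have h1' := tile_subset T i h1
  have h2' := tile_subset T i h2
  simp only [unitSquare, mem_prod, mem_Icc] at h1' h2'
  exact ⟨h1'.2.1, h2'.2.2⟩

/-- Some horizontal line meets at most `∑ sides` tiles, and the crossing probability is at least
`p` to that number. -/
theorem result (ι : Type) [Countable ι] (T : SquareTiling ι) (hs : Summable T.side) (p : I) :
    ENNReal.ofReal ((p : ℝ) ^ (∑' i, T.side i)) ≤ colouring ι p {ω | T.Crossing ω} := by
  classical
  set J : ι → Set ℝ := fun i => Icc (T.corner i).2 ((T.corner i).2 + T.side i) with hJ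
  set K : ℝ → ℝ≥0∞ := fun y => ∑' i, (J i).indicator (fun _ => (1 : ℝ≥0∞)) y with hK
  have hKm : Measurable K :=
    Measurable.tsum fun i => measurable_const.indicator measurableSet_Icc
  have hint : ∫⁻ y in Icc (0 : ℝ) 1, K y = ENNReal.ofReal (∑' i, T.side i) := by
    rw [hK, lintegral_tsum fun i =>
      (measurable_const.indicator measurableSet_Icc).aemeasurable]
    rw [ENNReal.ofReal_tsum_of_nonneg (fun i => (T.side_pos i).le) hs]
    congr 1
    ext i
    rw [lintegral_indicator measurableSet_Icc, lintegral_const, one_mul,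
      Measure.restrict_restrict measurableSet_Icc, Measure.restrict_apply MeasurableSet.univ,
      univ_inter]
    have : J i ∩ Icc 0 1 = J i := by
      apply inter_eq_left.mpr
      intro y hy
      obtain ⟨h1, h2⟩ := yrange T i
      simp only [hJ, mem_Icc] at hy ⊢
      exact ⟨by linarith [hy.1], by linarith [hy.2]⟩
    rw [this, hJ, Real.volume_Icc]
    congr 1; ring
  obtain ⟨y, hy, hKy⟩ : ∃ y ∈ Icc (0 : ℝ) 1, K y ≤ ENNReal.ofReal (∑' i, T.side i) := by
    have := exists_le_setLAverage (μ := volume) (s := Icc (0 : ℝ) 1) (f := K)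
      (by simp) (by simp) hKm.aemeasurable
    obtain ⟨y, hy, h⟩ := this
    refine ⟨y, hy, h.trans ?_⟩
    rw [setLAverage_eq, hint]
    simp
  set F : Set ι := {i | y ∈ J i} with hF
  have hKF : K y = (F.encard : ℝ≥0∞) := by
    have : K y = ∑' i, F.indicator (fun _ => (1 : ℝ≥0∞)) i := by
      simp only [hK]
      congr 1
    rw [this, ← tsum_subtype]
    exact ENNReal.tsum_set_one F
  have hFfin : F.Finite := by
    rw [← Set.encard_ne_top_iff]
    intro h
    rw [h] at hKF
    rw [hKF] at hKy
    simp at hKy
  have hcard : (hFfin.toFinset.card : ℝ) ≤ ∑' i, T.side i := by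
    have h1 : F.encard = (hFfin.toFinset.card : ℕ∞) := by
      rw [Set.Finite.encard_eq_coe_toFinset_card hFfin]
    rw [hKF, h1] at hKy
    have h2 : ((hFfin.toFinset.card : ℕ∞) : ℝ≥0∞) = ENNReal.ofReal (hFfin.toFinset.card : ℝ) := by
      simp
    rw [h2] at hKy
    exact (ENNReal.ofReal_le_ofReal_iff (tsum_nonneg fun i => (T.side_pos i).le)).mp hKy
  -- if all tiles of `F` are black then there is a crossing
  have hcross : Set.pi (hFfin.toFinset : Set ι) (fun _ => ({true} : Set Bool)) ⊆
      {ω | T.Crossing ω} := by
    intro ω hω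
    simp only [Set.mem_pi, Set.Finite.coe_toFinset, mem_singleton_iff] at hω
    refine ⟨⟨fun t => ((t : ℝ), y), by fun_prop⟩, by simp, by simp, fun t => ?_⟩
    have : ((t : ℝ), y) ∈ ⋃ i, square (T.corner i) (T.side i) := by
      rw [T.iUnion_eq]
      exact ⟨⟨t.2.1, t.2.2⟩, hy⟩
    obtain ⟨i, hi⟩ := mem_iUnion.mp this
    exact ⟨i, hω i hi.2, hi⟩
  refine le_trans ?_ (measure_mono hcross)
  rw [colouring, Measure.infinitePi_pi _ (fun _ _ => MeasurableSet.singleton _)]
  have hc : ProbabilityTheory.bernoulliMeasure true false p {true} = ENNReal.ofReal (p : ℝ) := by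
    rw [ProbabilityTheory.bernoulliMeasure_apply_of_mem_of_notMem p
      (MeasurableSet.singleton _) (by simp) (by simp)]
    rw [ENNReal.ofReal, ENNReal.coe_inj]
    exact (Real.toNNReal_of_nonneg p.2.1).symm
  rw [Finset.prod_congr rfl fun _ _ => hc, Finset.prod_const,
    ← ENNReal.ofReal_pow p.2.1, ← Real.rpow_natCast]
  apply ENNReal.ofReal_le_ofReal
  rcases eq_or_lt_of_le p.2.1 with hp0 | hp0
  · have hpos : 0 < ∑' i, T.side i := by
      have : ((0 : ℝ), (0 : ℝ)) ∈ ⋃ i, square (T.corner i) (T.side i) := by
        rw [T.iUnion_eq]; simp [unitSquare]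
      obtain ⟨i, -⟩ := mem_iUnion.mp this
      exact hs.tsum_pos (fun i => (T.side_pos i).le) i (T.side_pos i)
    rw [← hp0, Real.zero_rpow hpos.ne']
    positivity
  · exact Real.rpow_le_rpow_of_exponent_ge hp0 p.2.2 hcard

end Pool.Agent.Results.MP_aaae3e_pr.SideLengthBound
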